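import Pool.Agent.KS6_77.EbMet.Main

set_option autoImplicit false

namespace Pool.Agent.Results.MP_2e0873_gt.MetrizableCompacta

open Set Topology TopologicalSpace

/-- `A` embeds in a Banach space with its weak topology (for compact `A`: Eberlein compact) -/
def InWeakBanach (A : Type) [TopologicalSpace A] : Prop :=
  ∃ (E : Type) (_ : NormedAddCommGroup E) (_ : NormedSpace ℝ E) (_ : CompleteSpace E)
    (e : A → WeakSpace ℝ E), IsEmbedding e

/-- `A` embeds in a `Σ`-product of real lines (for compact `A`: Corson compact) -/
def InSigma (A : Type) [TopologicalSpace A] : Prop :=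
  ∃ (κ : Type) (e : A → κ → ℝ), IsEmbedding e ∧ ∀ a, {i : κ | e a i ≠ 0}.Countable

/-- **Arhangel'skii's question, strong negative answer and the separable case.**
1. There are a Tychonoff space `X` and a discrete space `T` such that every compact subspace of
   `C_p(X)` is metrizable (and Eberlein), but for the one-point compactification `K` of `T` the space
   `C_p(X × K)` has a compact subspace which is Corson compact and not Eberlein compact.
2. This cannot happen for separable `K`: if all compact subspaces of `C_p(X)` are metrizable and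
   `K` is any separable space, then all compact subspaces of `C_p(X × K)` are metrizable. -/
theorem result :
    (∃ (X T : Type) (_ : TopologicalSpace X) (_ : T35Space X) (_ : TopologicalSpace T)
      (_ : DiscreteTopology T),
      (∀ A : Set (X → ℝ), (∀ f ∈ A, Continuous f) → IsCompact A →
        MetrizableSpace A ∧ InWeakBanach A) ∧
      ∃ B : Set (X × OnePoint T → ℝ), (∀ f ∈ B, Continuous f) ∧ IsCompact B ∧
        InSigma B ∧ ¬ InWeakBanach B) ∧
    (∀ (X K : Type) [TopologicalSpace X] [TopologicalSpace K] [SeparableSpace K],
      (∀ A : Set (X → ℝ), (∀ f ∈ A, Continuous f) → IsCompact A → MetrizableSpace A) →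
      ∀ B : Set (X × K → ℝ), (∀ f ∈ B, Continuous f) → IsCompact B → MetrizableSpace B) := by
  refine ⟨?_, fun X K _ _ _ h B hB hBc => Pool.Agent.KS6_77.EbMet.sep_met h B hB hBc⟩
  open Pool.Agent.H.MP_2e0873 in
  let tN : TopologicalSpace N := ⊥
  open Pool.Agent.H.MP_2e0873 in
  have : DiscreteTopology N := ⟨rfl⟩
  open Pool.Agent.H.MP_2e0873 in
  refine ⟨X R, N, inferInstance, inferInstance, tN, this,
    fun A hA hAc => ⟨Pool.Agent.KS6_77.EbMet.met anti hA hAc, eb anti hA hAc⟩,
    ph R '' B R, ?_, (Bc R).isCompact.image (phc R), ?_, ?_⟩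
  · rintro _ ⟨A, hA, rfl⟩
    exact phx R hA
  · have hc : CompactSpace (ph R '' B R) :=
      isCompact_iff_compactSpace.1 ((Bc R).isCompact.image (phc R))
    refine ⟨N, fun f t => f.1 (fin {t}, t), (Continuous.isClosedEmbedding
      (continuous_pi fun t => (continuous_apply _).comp continuous_subtype_val)
      fun f g h => ?_).isEmbedding, ?_⟩
    · obtain ⟨_, A, hA, rfl⟩ := f
      obtain ⟨_, A', hA', rfl⟩ := g
      have : A = A' := funext fun a => by
        have := congrFun h a
        cases e : A a <;> cases e' : A' a <;> simp_all [ph, fin]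
      subst this
      rfl
    · rintro ⟨_, A, hA, rfl⟩
      refine (Pool.Agent.KS6_77.EbMet.chain_countable hA).mono fun t ht => ?_
      by_contra hcon
      apply ht
      have : A t = false := by simpa using hcon
      simp [ph, this]
  · rintro ⟨V, _, _, _, e, he⟩
    obtain ⟨c, hc⟩ := ne R (fun A => (toWeakSpace ℝ V).symm (e ⟨ph R A.1, A.1, A.2, rfl⟩))
      (fun φ => (WeakBilin.eval_continuous (topDualPairing ℝ V).flip φ).comp (he.continuous.comp
        (((phc R).comp continuous_subtype_val).subtype_mk _)))
      fun A A' h => Subtype.ext (phi R (congrArg Subtype.val (he.injective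
        ((toWeakSpace ℝ V).symm.injective h))))
    obtain ⟨g, g1, g2, n, g3⟩ := nsp c
    obtain ⟨i, hi⟩ := hc g g1 g2 n
    exact hi (g3 i)

end Pool.Agent.Results.MP_2e0873_gt.MetrizableCompacta
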